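import Pool.Agent.J6H91.TZ.Stm2

/-!
# Module TZ2-CNT: counting
-/

set_option autoImplicit false

namespace Pool.Agent.J6H49.TZ

open Pool.Agent.J6H91.TZ (kev S_CNT)

theorem card_sep {n : ℕ} (hn : 0 < n) (F : Finset ℝ) (L : ℝ) (hL : 0 ≤ L)
    (h1 : ∀ s ∈ F, ∀ s' ∈ F, s ≠ s' → 1 / (n : ℝ) ≤ |s - s'|)
    (h2 : ∀ s ∈ F, ∀ s' ∈ F, |s - s'| ≤ L) : (F.card : ℝ) ≤ L * n + 1 := by
  rcases F.eq_empty_or_nonempty with rfl | hF
  · rw [Finset.card_empty, Nat.cast_zero]
    positivity
  have hn' : (0 : ℝ) < n := Nat.cast_pos.2 hn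
  set a := F.min' hF with ha
  have hmem : a ∈ F := F.min'_mem hF
  have hle : ∀ s ∈ F, a ≤ s := fun s hs => F.min'_le s hs
  have h3 : (F.card : ℕ) ≤ (Finset.range (⌊L * n⌋₊ + 1)).card := by
    refine Finset.card_le_card_of_injOn (fun s => ⌊(s - a) * n⌋₊) ?_ ?_
    · intro s hs
      rw [Finset.mem_coe, Finset.mem_range, Nat.lt_succ_iff]
      refine Nat.floor_le_floor ?_
      refine mul_le_mul_of_nonneg_right ?_ hn'.le
      exact (le_abs_self _).trans (h2 s hs a hmem)
    · have key : ∀ s ∈ F, ∀ s' ∈ F, s < s' → ⌊(s - a) * n⌋₊ < ⌊(s' - a) * n⌋₊ := by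
        intro s hs s' hs' hlt
        have h4 := h1 s' hs' s hs hlt.ne'
        rw [abs_of_pos (sub_pos.2 hlt), div_le_iff₀ hn'] at h4
        have h5 : 0 ≤ (s - a) * n := mul_nonneg (sub_nonneg.2 (hle s hs)) hn'.le
        have h6 : (s - a) * n + 1 ≤ (s' - a) * n := by nlinarith
        have h7 : ⌊(s - a) * n⌋₊ + 1 ≤ ⌊(s' - a) * n⌋₊ := by
          rw [← Nat.floor_add_one h5]
          exact Nat.floor_le_floor h6
        exact h7
      intro s hs s' hs' h
      rcases lt_trichotomy s s' with h4 | h4 | h4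
      · exact absurd h (key s hs s' hs' h4).ne
      · exact h4
      · exact absurd h (key s' hs' s hs h4).ne'
  rw [Finset.card_range] at h3
  have h4 : (F.card : ℝ) ≤ (⌊L * n⌋₊ : ℝ) + 1 := by exact_mod_cast h3
  have h5 : (⌊L * n⌋₊ : ℝ) ≤ L * n := Nat.floor_le (by positivity)
  linarith

/-- counting for one polynomial -/
theorem card_poly {n : ℕ} (hn : 0 < n) (g : Polynomial ℝ) (D : ℕ) (hD : g.natDegree ≤ D)
    (S : Finset ℝ) (c η : ℝ) (hc : 0 < c) (hη : 0 ≤ η)
    (h1 : ∀ s ∈ S, ∀ s' ∈ S, s ≠ s' → 1 / (n : ℝ) ≤ |s - s'|)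
    (h2 : ∀ s ∈ S, |g.eval s| ≤ η ∧ c / 2 ≤ |(Polynomial.derivative g).eval s|) :
    (S.card : ℝ) ≤ (2 * D + 1) * (8 * η / c * n + 1) := by
  rcases S.eq_empty_or_nonempty with rfl | ⟨s₀, hs₀⟩
  · rw [Finset.card_empty, Nat.cast_zero]
    positivity
  set P : Polynomial ℝ := (Polynomial.derivative g) ^ 2 - Polynomial.C (c ^ 2 / 16) with hP
  have hPe : ∀ t, P.eval t = ((Polynomial.derivative g).eval t) ^ 2 - c ^ 2 / 16 := by
    intro t
    simp [hP]
  have hPpos : ∀ s ∈ S, 0 < P.eval s := by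
    intro s hs
    rw [hPe, ← sq_abs]
    have h3 := (h2 s hs).2
    nlinarith [abs_nonneg ((Polynomial.derivative g).eval s)]
  have hP0 : P ≠ 0 := by
    intro h
    have h3 := hPpos s₀ hs₀
    rw [h, Polynomial.eval_zero] at h3
    exact lt_irrefl _ h3
  have hPdeg : P.natDegree ≤ 2 * D := by
    rw [hP, Polynomial.natDegree_sub_C]
    refine (Polynomial.natDegree_pow_le).trans ?_
    have h3 := Polynomial.natDegree_derivative_le g
    omega
  let Z : Finset ℝ := P.roots.toFinset
  have hZ : Z.card ≤ 2 * D :=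
    (Multiset.toFinset_card_le _).trans ((Polynomial.card_roots' P).trans hPdeg)
  let ρ : ℝ → ℕ := fun s => (Z.filter fun z => z < s).card
  have hρ : ∀ s ∈ S, ρ s ∈ Finset.range (2 * D + 1) := by
    intro s _
    rw [Finset.mem_range, Nat.lt_succ_iff]
    exact (Finset.card_filter_le _ _).trans hZ
  -- no roots between points of the same class
  have hno : ∀ s ∈ S, ∀ s' ∈ S, s < s' → ρ s = ρ s' →
      ∀ t ∈ Set.Icc s s', c / 4 ≤ |(Polynomial.derivative g).eval t| := by
    intro s hs s' hs' hlt hρs t ht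
    by_contra hcon
    have h3 : P.eval t < 0 := by
      rw [hPe, ← sq_abs]
      nlinarith [abs_nonneg ((Polynomial.derivative g).eval t), not_le.1 hcon]
    obtain ⟨z, hz, hz0⟩ : ∃ z ∈ Set.Icc s t, P.eval z = 0 := by
      have h4 : (0 : ℝ) ∈ Set.Icc (P.eval t) (P.eval s) := ⟨h3.le, (hPpos s hs).le⟩
      exact intermediate_value_Icc' ht.1 (P.continuous.continuousOn) h4
    have hzs : z ≠ s := by
      rintro rfl
      exact (hPpos z hs).ne' hz0
    have hlt2 : s < z := lt_of_le_of_ne hz.1 (Ne.symm hzs)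
    have hzs' : z < s' := by
      refine lt_of_le_of_ne (hz.2.trans ht.2) ?_
      rintro rfl
      exact (hPpos z hs').ne' hz0
    have h5 : (Z.filter fun z => z < s).card < (Z.filter fun z => z < s').card := by
      refine Finset.card_lt_card ⟨fun y hy => ?_, fun hsub => ?_⟩
      · rw [Finset.mem_filter] at hy ⊢
        exact ⟨hy.1, hy.2.trans hlt⟩
      · have h6 : z ∈ Z.filter fun z => z < s' := by
          rw [Finset.mem_filter]
          exact ⟨Multiset.mem_toFinset.2 ((Polynomial.mem_roots hP0).2 hz0), hzs'⟩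
        have h7 := hsub h6
        rw [Finset.mem_filter] at h7
        exact absurd h7.2 (not_lt.2 hlt2.le)
    exact h5.ne hρs
  have hdist : ∀ s ∈ S, ∀ s' ∈ S, s < s' → ρ s = ρ s' → |s - s'| ≤ 8 * η / c := by
    intro s hs s' hs' hlt hρs
    obtain ⟨t, ht, ht2⟩ := exists_deriv_eq_slope (fun x => g.eval x) hlt
      g.continuous.continuousOn g.differentiable.differentiableOn
    have h3 := hno s hs s' hs' hlt hρs t (Set.Ioo_subset_Icc_self ht)
    rw [Polynomial.deriv, eq_div_iff (sub_pos.2 hlt).ne'] at ht2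
    have h4 : |(Polynomial.derivative g).eval t| * (s' - s) = |g.eval s' - g.eval s| := by
      rw [← ht2, abs_mul, abs_of_pos (sub_pos.2 hlt)]
    have h5 : |g.eval s' - g.eval s| ≤ 2 * η := by
      refine (abs_sub _ _).trans ?_
      linarith [(h2 s hs).1, (h2 s' hs').1]
    rw [abs_sub_comm, abs_of_pos (sub_pos.2 hlt), le_div_iff₀ hc]
    have h6 : c / 4 * (s' - s) ≤ 2 * η := by
      refine le_trans ?_ h5
      rw [← h4]
      exact mul_le_mul_of_nonneg_right h3 (sub_pos.2 hlt).le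
    linarith
  have hfib : ∀ b ∈ Finset.range (2 * D + 1),
      (((S.filter fun s => ρ s = b).card : ℕ) : ℝ) ≤ 8 * η / c * n + 1 := by
    intro b _
    refine card_sep hn _ _ (by positivity) ?_ ?_
    · intro s hs s' hs' hne
      exact h1 s (Finset.mem_filter.1 hs).1 s' (Finset.mem_filter.1 hs').1 hne
    · intro s hs s' hs'
      rw [Finset.mem_filter] at hs hs'
      rcases lt_trichotomy s s' with h4 | h4 | h4
      · exact hdist s hs.1 s' hs'.1 h4 (hs.2.trans hs'.2.symm)
      · rw [h4, sub_self, abs_zero]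
        positivity
      · rw [abs_sub_comm]
        exact hdist s' hs'.1 s hs.1 h4 (hs'.2.trans hs.2.symm)
  have h3 : S.card = ∑ b ∈ Finset.range (2 * D + 1), (S.filter fun s => ρ s = b).card :=
    Finset.card_eq_sum_card_fiberwise hρ
  rw [h3, Nat.cast_sum]
  refine (Finset.sum_le_sum hfib).trans (le_of_eq ?_)
  rw [Finset.sum_const, Finset.card_range, nsmul_eq_mul]
  push_cast
  ring

/-- polynomials are Lipschitz on intervals -/
theorem lip (a : Polynomial ℝ) (R : ℝ) : ∃ L : ℝ, 0 ≤ L ∧ ∀ w ∈ Set.Icc (-R) R,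
    ∀ w' ∈ Set.Icc (-R) R, |a.eval w - a.eval w'| ≤ L * |w - w'| := by
  obtain ⟨B, hB⟩ := (isCompact_Icc (a := -R) (b := R)).exists_bound_of_continuousOn
    (f := fun w => (Polynomial.derivative a).eval w)
    (Polynomial.derivative a).continuous.continuousOn
  refine ⟨|B|, abs_nonneg _, fun w hw w' hw' => ?_⟩
  have h := Convex.norm_image_sub_le_of_norm_deriv_le (f := fun w => a.eval w) (C := |B|)
    (s := Set.Icc (-R) R) (x := w') (y := w)
    (fun x _ => a.differentiable.differentiableAt)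
    (fun x hx => by
      rw [Polynomial.deriv]
      exact (hB x hx).trans (le_abs_self B)) (convex_Icc _ _) hw' hw
  exact h

theorem kev_eq (k : Polynomial (Polynomial ℝ)) (s w : ℝ) {D : ℕ} (hD : k.natDegree ≤ D) :
    kev k s w = ∑ i ∈ Finset.range (D + 1), (k.coeff i).eval w * s ^ i := by
  unfold kev
  rw [Polynomial.eval_eq_sum_range' (n := D + 1)
    (Nat.lt_succ_of_le (Polynomial.natDegree_map_le.trans hD))]
  refine Finset.sum_congr rfl fun i _ => ?_
  rw [Polynomial.coeff_map]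
  rfl

theorem kev_lip (k : Polynomial (Polynomial ℝ)) (δ R : ℝ) : ∃ L : ℝ, 0 ≤ L ∧
    ∀ s, |s| ≤ δ → ∀ w ∈ Set.Icc (-R) R, ∀ w' ∈ Set.Icc (-R) R,
      |kev k s w - kev k s w'| ≤ L * |w - w'| := by
  choose L hL0 hL using fun i => lip (k.coeff i) R
  refine ⟨∑ i ∈ Finset.range (k.natDegree + 1), L i * |δ| ^ i,
    Finset.sum_nonneg fun i _ => mul_nonneg (hL0 i) (by positivity), fun s hs w hw w' hw' => ?_⟩
  rw [kev_eq k s w le_rfl, kev_eq k s w' le_rfl, ← Finset.sum_sub_distrib, Finset.sum_mul]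
  refine (Finset.abs_sum_le_sum_abs _ _).trans (Finset.sum_le_sum fun i _ => ?_)
  rw [← sub_mul, abs_mul, abs_pow]
  have h1 : |s| ^ i ≤ |δ| ^ i := pow_le_pow_left₀ (abs_nonneg _) (hs.trans (le_abs_self _)) i
  calc |(k.coeff i).eval w - (k.coeff i).eval w'| * |s| ^ i
      ≤ (L i * |w - w'|) * |δ| ^ i :=
        mul_le_mul (hL i w hw w' hw') h1 (by positivity) (mul_nonneg (hL0 i) (abs_nonneg _))
    _ = L i * |δ| ^ i * |w - w'| := by ring

theorem kev_deriv (k : Polynomial (Polynomial ℝ)) (s w : ℝ) :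
    kev (Polynomial.derivative k) s w =
      (Polynomial.derivative (k.map (Polynomial.evalRingHom w))).eval s := by
  unfold kev
  rw [Polynomial.derivative_map]

theorem cnt : S_CNT := by
  intro δ c M k A x hδ hc hA hx
  obtain ⟨L1, hL1, hl1⟩ := kev_lip k δ (|M| + 1)
  obtain ⟨L2, hL2, hl2⟩ := kev_lip (Polynomial.derivative k) δ (|M| + 1)
  set C₁ := L1 + L2 + 1 with hC₁
  have hC₁0 : 0 < C₁ := by positivity
  set ε₀ := min 1 (c / (2 * C₁)) with hε₀
  have hε₀0 : 0 < ε₀ := lt_min one_pos (by positivity)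
  set K := (2 * (k.natDegree : ℝ) + 1) * (8 * C₁ / c + 1) + 2 * δ / ε₀ + 1 with hK
  have hK1 : 1 ≤ K := by
    have : 0 ≤ (2 * (k.natDegree : ℝ) + 1) * (8 * C₁ / c + 1) + 2 * δ / ε₀ := by positivity
    linarith
  refine ⟨K, fun n T w ε hn hT hsep hε => ?_⟩
  have hn' : (0 : ℝ) < n := Nat.cast_pos.2 hn
  rcases lt_or_ge ε₀ ε with h | h
  · -- large ε
    have h1 : (T.card : ℝ) ≤ 2 * δ * n + 1 := by
      refine card_sep hn T (2 * δ) (by positivity) hsep fun s hs s' hs' => ?_
      have h2 := hA (hT hs)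
      have h3 := hA (hT hs')
      rw [abs_le]
      constructor
      · linarith [h2.1, h3.2]
      · linarith [h2.2, h3.1]
    have h2 : ((T.filter fun s => |x s - w| ≤ ε).card : ℝ) ≤ T.card := by
      exact_mod_cast Finset.card_filter_le _ _
    refine h2.trans (h1.trans ?_)
    have h3 : 2 * δ * n ≤ 2 * δ / ε₀ * (ε * n) := by
      rw [div_mul_eq_mul_div, le_div_iff₀ hε₀0]
      nlinarith [mul_pos hδ hn', mul_pos (mul_pos hδ hn') (sub_pos.2 h)]
    have h4 : 2 * δ / ε₀ * (ε * n) ≤ K * (ε * n) := by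
      refine mul_le_mul_of_nonneg_right ?_ (by positivity)
      have : 0 ≤ (2 * (k.natDegree : ℝ) + 1) * (8 * C₁ / c + 1) := by positivity
      rw [hK]
      linarith
    rw [mul_add, mul_one]
    linarith
  · -- small ε
    have hε1 : ε ≤ 1 := h.trans (min_le_left _ _)
    have hεc : C₁ * ε ≤ c / 2 := by
      have h1 : ε ≤ c / (2 * C₁) := h.trans (min_le_right _ _)
      rw [le_div_iff₀ (by positivity)] at h1
      linarith
    by_cases hw : |w| ≤ |M| + 1
    · have hmemw : w ∈ Set.Icc (-(|M| + 1)) (|M| + 1) := abs_le.1 hw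
      have h3 : ∀ s ∈ T.filter fun s => |x s - w| ≤ ε,
          |(k.map (Polynomial.evalRingHom w)).eval s| ≤ C₁ * ε ∧
          c / 2 ≤ |(Polynomial.derivative (k.map (Polynomial.evalRingHom w))).eval s| := by
        intro s hs
        rw [Finset.mem_filter] at hs
        have hsA := hT hs.1
        obtain ⟨h4, h5, h6⟩ := hx s hsA
        have hsδ : |s| ≤ δ := abs_le.2 ⟨(hA hsA).1.le, (hA hsA).2.le⟩
        have hmx : x s ∈ Set.Icc (-(|M| + 1)) (|M| + 1) := by
          refine abs_le.1 (h4.trans ?_)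
          linarith [le_abs_self M]
        have h7 := hl1 s hsδ w hmemw (x s) hmx
        have h8 := hl2 s hsδ w hmemw (x s) hmx
        rw [h5, sub_zero] at h7
        rw [abs_sub_comm w] at h7 h8
        have h9 : L1 * |x s - w| ≤ C₁ * ε := mul_le_mul (by linarith) hs.2 (abs_nonneg _) hC₁0.le
        have h10 : L2 * |x s - w| ≤ C₁ * ε := mul_le_mul (by linarith) hs.2 (abs_nonneg _) hC₁0.le
        refine ⟨h7.trans h9, ?_⟩
        rw [← kev_deriv]
        have h11 := abs_sub_abs_le_abs_sub (kev (Polynomial.derivative k) s (x s))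
          (kev (Polynomial.derivative k) s w)
        rw [abs_sub_comm] at h11
        linarith
      have h4 := card_poly hn (k.map (Polynomial.evalRingHom w)) k.natDegree
        Polynomial.natDegree_map_le (T.filter fun s => |x s - w| ≤ ε) c (C₁ * ε) hc (by positivity)
        (fun s hs s' hs' hne => hsep s (Finset.mem_filter.1 hs).1 s' (Finset.mem_filter.1 hs').1 hne)
        h3
      refine h4.trans ?_
      have h5 : 8 * (C₁ * ε) / c * n = 8 * C₁ / c * (ε * n) := by ring
      rw [h5]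
      have h6 : 0 ≤ ε * n := by positivity
      have h7 : 0 ≤ 8 * C₁ / c := by positivity
      have h8 : 8 * C₁ / c * (ε * n) + 1 ≤ (8 * C₁ / c + 1) * (ε * n + 1) := by nlinarith
      have h9 : (2 * (k.natDegree : ℝ) + 1) * (8 * C₁ / c * (ε * n) + 1) ≤
          (2 * (k.natDegree : ℝ) + 1) * ((8 * C₁ / c + 1) * (ε * n + 1)) :=
        mul_le_mul_of_nonneg_left h8 (by positivity)
      refine h9.trans ?_
      rw [← mul_assoc]
      refine mul_le_mul_of_nonneg_right ?_ (by positivity)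
      have h10 : 0 ≤ 2 * δ / ε₀ := by positivity
      rw [hK]
      linarith
    · have h3 : (T.filter fun s => |x s - w| ≤ ε) = ∅ := by
        rw [Finset.filter_eq_empty_iff]
        intro s hs h4
        have h5 := (hx s (hT hs)).1
        have h6 : |w| ≤ |x s| + ε := by
          have h7 := abs_sub_abs_le_abs_sub w (x s)
          rw [abs_sub_comm] at h7
          linarith
        exact hw (by linarith [le_abs_self M])
      rw [h3, Finset.card_empty, Nat.cast_zero]
      positivity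

end Pool.Agent.J6H49.TZ
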